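import Mathlib

/-!
# Translation KM-arcs: the vector space argument
-/

set_option autoImplicit false

open Module

namespace Q140.KM

/-- A bijective semilinear map. -/
def IsSemilinear (K : Type*) {V W : Type*} [Field K] [AddCommGroup V] [Module K V]
    [AddCommGroup W] [Module K W] (φ : V ≃+ W) : Prop :=
  ∃ σ : K ≃+* K, ∀ (a : K) (x : V), φ (a • x) = σ a • φ x

section

variable {K V : Type*} [Field K] [AddCommGroup V] [Module K V]

/-- `⟨x⟩` is a point of the arc -/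
def InA (f : V →ₗ[K] K) (U : AddSubgroup V) (v x : V) : Prop :=
  (∃ u ∈ U, ∃ c : K, c ≠ 0 ∧ x = c • (u + v)) ∨
    (x ≠ 0 ∧ f x = 0 ∧ ∀ u ∈ U, ∀ c : K, x ≠ c • u)

/-- data of an arc -/
structure Arc (f : V →ₗ[K] K) (U : AddSubgroup V) (v : V) : Prop where
  hU : ∀ u ∈ U, f u = 0
  hv : f v = 1

variable {f : V →ₗ[K] K} {U : AddSubgroup V} {v : V}

lemma InA.smul {x : V} (h : InA f U v x) {c : K} (hc : c ≠ 0) : InA f U v (c • x) := by
  rcases h with ⟨u, hu, d, hd, rfl⟩ | ⟨h0, h1, h2⟩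
  · exact Or.inl ⟨u, hu, c * d, mul_ne_zero hc hd, by rw [smul_smul]⟩
  · refine Or.inr ⟨smul_ne_zero hc h0, by rw [map_smul, h1, smul_zero], fun u hu d hd => ?_⟩
    apply h2 u hu (c⁻¹ * d)
    rw [mul_smul, ← hd, smul_smul, inv_mul_cancel₀ hc, one_smul]

lemma inA_smul_iff {x : V} {c : K} (hc : c ≠ 0) : InA f U v (c • x) ↔ InA f U v x := by
  refine ⟨fun h => ?_, fun h => h.smul hc⟩
  have := h.smul (inv_ne_zero hc)
  rwa [smul_smul, inv_mul_cancel₀ hc, one_smul] at this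

/-- the elation `x ↦ x + f x • w` -/
def elation (f : V →ₗ[K] K) (w : V) (hw : f w = 0) : V ≃+ V where
  toFun x := x + f x • w
  invFun x := x - f x • w
  left_inv x := by simp [hw]
  right_inv x := by simp [hw]
  map_add' x y := by simp only [map_add, add_smul]; abel

lemma elation_apply (w : V) (hw : f w = 0) (x : V) : elation f w hw x = x + f x • w := rfl

lemma elation_smul (w : V) (hw : f w = 0) (a : K) (x : V) :
    elation f w hw (a • x) = a • elation f w hw x := by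
  simp only [elation_apply, map_smul, smul_add, smul_smul, smul_eq_mul]

lemma inA_elation (h : Arc f U v) {w : V} (hw : w ∈ U) {x : V} (hx : InA f U v x) :
    InA f U v (elation f w (h.hU w hw) x) := by
  rcases hx with ⟨u, hu, c, hc, rfl⟩ | ⟨h0, h1, h2⟩
  · refine Or.inl ⟨u + w, U.add_mem hu hw, c, hc, ?_⟩
    rw [elation_apply, map_smul, map_add, h.hU u hu, h.hv, zero_add, smul_eq_mul, mul_one,
      ← smul_add]
    congr 1
    abel
  · refine Or.inr ?_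
    have : elation f w (h.hU w hw) x = x := by rw [elation_apply, h1, zero_smul, add_zero]
    rw [this]
    exact ⟨h0, h1, h2⟩

lemma inA_elation_iff (h : Arc f U v) {w : V} (hw : w ∈ U) {x : V} :
    InA f U v (elation f w (h.hU w hw) x) ↔ InA f U v x := by
  refine ⟨fun hx => ?_, inA_elation h hw⟩
  have := inA_elation h (U.neg_mem hw) hx
  rw [elation_apply, elation_apply] at this
  simpa [h.hU w hw] using this

lemma InA.of_ne {x : V} (h : InA f U v x) (hx : f x ≠ 0) :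
    ∃ u ∈ U, ∃ c : K, c ≠ 0 ∧ x = c • (u + v) := by
  rcases h with h | ⟨-, h1, -⟩
  · exact h
  · exact absurd h1 hx

end

section

variable {K V : Type*} [Field K] [AddCommGroup V] [Module K V]
variable {f₁ f₂ : V →ₗ[K] K} {U₁ U₂ : AddSubgroup V} {v₁ v₂ : V}

/-- If a semilinear map sends arc to arc and the line at infinity to the line at infinity, it sends
`U₁` to a multiple of `U₂`. -/
lemma step3 (h₁ : Arc f₁ U₁ v₁) (h₂ : Arc f₂ U₂ v₂) (φ : V ≃+ V) (hφ : IsSemilinear K φ)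
    (hH : ∀ x, f₁ x = 0 ↔ f₂ (φ x) = 0) (hA : ∀ x, InA f₁ U₁ v₁ x ↔ InA f₂ U₂ v₂ (φ x)) :
    ∃ κ : K, κ ≠ 0 ∧ ∀ x, x ∈ U₁ ↔ κ⁻¹ • φ x ∈ U₂ := by
  obtain ⟨σ, hσ⟩ := hφ
  set κ := f₂ (φ v₁) with hκ
  have hκ0 : κ ≠ 0 := by
    intro h0
    have := (hH v₁).2 h0
    rw [h₁.hv] at this
    exact one_ne_zero this
  -- `φ (u + v₁) = κ (u' + v₂)`
  have key : ∀ u ∈ U₁, ∃ u' ∈ U₂, φ (u + v₁) = κ • (u' + v₂) := by
    intro u hu
    have h1 : InA f₁ U₁ v₁ (u + v₁) := Or.inl ⟨u, hu, 1, one_ne_zero, by rw [one_smul]⟩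
    have h2 := (hA _).1 h1
    have h3 : f₂ (φ (u + v₁)) = κ := by
      rw [map_add, map_add, (hH u).1 (h₁.hU u hu), zero_add]
    obtain ⟨u', hu', c, hc, he⟩ := h2.of_ne (by rw [h3]; exact hκ0)
    have h4 : c = κ := by
      rw [he, map_smul, map_add, h₂.hU u' hu', h₂.hv, zero_add, smul_eq_mul, mul_one] at h3
      exact h3
    exact ⟨u', hu', by rw [he, h4]⟩
  obtain ⟨u0, hu0, he0⟩ := key 0 U₁.zero_mem
  rw [zero_add] at he0
  refine ⟨κ, hκ0, fun x => ⟨fun hx => ?_, fun hx => ?_⟩⟩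
  · obtain ⟨u', hu', he⟩ := key x hx
    have : φ x = κ • (u' - u0) := by
      have h5 : φ x = φ (x + v₁) - φ v₁ := by rw [map_add]; abel
      rw [h5, he, he0, ← smul_sub]
      congr 1
      abel
    rw [this, smul_smul, inv_mul_cancel₀ hκ0, one_smul]
    exact U₂.sub_mem hu' hu0
  · set u' := κ⁻¹ • φ x with hu'
    have h6 : φ x = κ • u' := by rw [hu', smul_smul, mul_inv_cancel₀ hκ0, one_smul]
    have h7 : InA f₂ U₂ v₂ (φ (x + v₁)) := by
      refine Or.inl ⟨u' + u0, U₂.add_mem hx hu0, κ, hκ0, ?_⟩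
      rw [map_add, h6, he0, ← smul_add]
      congr 1
      abel
    have h8 := (hA _).2 h7
    have h9 : f₁ x = 0 := by
      rw [hH, h6, map_smul, h₂.hU _ hx, smul_zero]
    have h10 : f₁ (x + v₁) = 1 := by rw [map_add, h9, h₁.hv, zero_add]
    obtain ⟨u, hu, c, hc, he⟩ := h8.of_ne (by rw [h10]; exact one_ne_zero)
    have h11 : c = 1 := by
      rw [he, map_smul, map_add, h₁.hU u hu, h₁.hv, zero_add, smul_eq_mul, mul_one] at h10
      exact h10
    rw [h11, one_smul] at he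
    have : x = u := add_right_cancel he
    rw [this]
    exact hu

/-- The moving step. `p` spans the intersection of the line `H` and the line `m`, the image of the
line `H`. -/
lemma move (h₁ : Arc f₁ U₁ v₁) (h₂ : Arc f₂ U₂ v₂) (φ : V ≃+ V) (hφ : IsSemilinear K φ)
    (hA : ∀ x, InA f₁ U₁ v₁ x ↔ InA f₂ U₂ v₂ (φ x)) (p : V) (hp : f₂ p = 0)
    (hp' : f₁ (φ.symm p) = 0)
    (hint : ∀ x, f₂ x = 0 → f₁ (φ.symm x) = 0 → ∃ a : K, x = a • p)
    (u0 : V) (hu0 : u0 ∈ U₂) (hu0m : f₁ (φ.symm (u0 + v₂)) = 0)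
    (u : V) (hu : u ∈ U₂) (hum : f₁ (φ.symm (u + v₂)) ≠ 0)
    (r : V) (hr : InA f₂ U₂ v₂ r) (hrH : f₂ r = 0) (hrm : f₁ (φ.symm r) ≠ 0) :
    ∃ ψ : V ≃+ V, IsSemilinear K ψ ∧ (∀ x, InA f₁ U₁ v₁ x ↔ InA f₂ U₂ v₂ (ψ x)) ∧
      ∀ x, f₁ x = 0 → f₂ (ψ x) = 0 := by
  obtain ⟨σ, hσ⟩ := hφ
  have hσ' : ∀ (a : K) (x : V), φ.symm (a • x) = σ.symm a • φ.symm x := by
    intro a x
    rw [AddEquiv.symm_apply_eq, hσ]
    simp
  -- the preimages of the two points
  have h3 : InA f₂ U₂ v₂ (u + v₂) := Or.inl ⟨u, hu, 1, one_ne_zero, by rw [one_smul]⟩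
  have h4 : InA f₁ U₁ v₁ (φ.symm (u + v₂)) := by rw [hA]; simpa using h3
  have h5 : InA f₁ U₁ v₁ (φ.symm r) := by rw [hA]; simpa using hr
  obtain ⟨ua, hua, ca, hca, hea⟩ := h4.of_ne hum
  obtain ⟨ub, hub, cb, hcb, heb⟩ := h5.of_ne hrm
  have hw2 : u - u0 ∈ U₂ := U₂.sub_mem hu hu0
  have hw1 : ub - ua ∈ U₁ := U₁.sub_mem hub hua
  set τ := elation f₂ (u - u0) (h₂.hU _ hw2) with hτ
  set τ₁ := elation f₁ (ub - ua) (h₁.hU _ hw1) with hτ₁
  set ψ : V ≃+ V := (((φ.trans τ).trans φ.symm).trans τ₁).trans φ with hψ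
  have hψx : ∀ x, ψ x = φ (τ₁ (φ.symm (τ (φ x)))) := fun x => rfl
  refine ⟨ψ, ⟨σ, fun a x => ?_⟩, fun x => ?_, fun x hx => ?_⟩
  · rw [hψx, hψx, hσ, hτ, elation_smul, hσ', hτ₁, elation_smul, hσ]
    simp
  · have e1 : InA f₁ U₁ v₁ (φ.symm (τ (φ x))) ↔ InA f₂ U₂ v₂ (τ (φ x)) := by
      rw [hA, AddEquiv.apply_symm_apply]
    rw [hψx, ← hA, hτ₁, inA_elation_iff h₁ hw1, e1, hτ, inA_elation_iff h₂ hw2, hA]
  · -- `φ x = a p + b (u0 + v₂)`
    set y := φ x with hy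
    have hym : f₁ (φ.symm y) = 0 := by rw [hy, AddEquiv.symm_apply_apply]; exact hx
    have h6 : f₂ (u0 + v₂) = 1 := by rw [map_add, h₂.hU u0 hu0, h₂.hv, zero_add]
    obtain ⟨a, ha⟩ := hint (y - f₂ y • (u0 + v₂))
      (by rw [map_sub, map_smul, h6, smul_eq_mul, mul_one, sub_self])
      (by rw [map_sub, hσ', map_sub, map_smul, hym, hu0m, smul_zero, sub_zero])
    have h7 : y = a • p + f₂ y • (u0 + v₂) := by rw [← ha]; abel
    have h8 : τ y = a • p + f₂ y • (u + v₂) := by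
      rw [hτ, elation_apply]
      nth_rewrite 1 [h7]
      rw [add_assoc, ← smul_add]
      congr 2
      abel
    have h9 : φ.symm (τ y) = σ.symm a • φ.symm p + (σ.symm (f₂ y) * ca) • (ua + v₁) := by
      rw [h8, map_add, hσ', hσ', hea, smul_smul]
    have h10 : f₁ (φ.symm (τ y)) = σ.symm (f₂ y) * ca := by
      rw [h9, map_add, map_smul, hp', smul_zero, zero_add, map_smul, map_add, h₁.hU ua hua, h₁.hv,
        zero_add, smul_eq_mul, mul_one]
    have h11 : τ₁ (φ.symm (τ y)) = σ.symm a • φ.symm p +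
        (σ.symm (f₂ y) * ca * cb⁻¹) • φ.symm r := by
      rw [hτ₁, elation_apply, h10, h9, heb, smul_smul, mul_assoc _ cb⁻¹, inv_mul_cancel₀ hcb,
        mul_one, add_assoc, ← smul_add]
      congr 2
      abel
    rw [hψx, h11, map_add, hσ, hσ, AddEquiv.apply_symm_apply, AddEquiv.apply_symm_apply, map_add,
      map_smul, map_smul, hp, hrH, smul_zero, smul_zero, add_zero]

end

end Q140.KM
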