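import Pool.Agent.Q140.KM.Core

set_option autoImplicit false

open Module
open scoped LinearAlgebra.Projectivization

namespace Q140.KM

variable {K V : Type*} [Field K] [AddCommGroup V] [Module K V]

/-- the club data, in terms of cardinalities: `p` is the heavy vector -/
structure Club (K : Type*) {V : Type*} [Field K] [AddCommGroup V] [Module K V]
    (U : AddSubgroup V) (p : V) (q t : ℕ) : Prop where
  mem : p ∈ U
  ne : p ≠ 0
  card : Nat.card U = q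
  heavy : {x : V | x ∈ U ∧ ∃ c : K, x = c • p}.ncard = t
  light : ∀ a ∈ U, ∀ b ∈ U, a ≠ 0 → b ≠ 0 → a ≠ b → (∃ c : K, b = c • a) → ∃ c : K, a = c • p

lemma finrank_ker [FiniteDimensional K V] {f : V →ₗ[K] K} {v : V} (hv : f v = 1)
    (hV : finrank K V = 3) : finrank K (LinearMap.ker f) = 2 := by
  have h1 := f.finrank_range_add_finrank_ker
  have h2 : LinearMap.range f = ⊤ := by
    rw [LinearMap.range_eq_top]
    intro y
    exact ⟨y • v, by rw [map_smul, hv, smul_eq_mul, mul_one]⟩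
  rw [h2, finrank_top, finrank_self, hV] at h1
  omega

/-- There are at least `t` points of the arc on the line. -/
lemma many [Finite K] [Finite V] [FiniteDimensional K V] {f : V →ₗ[K] K} {U : AddSubgroup V}
    {v p : V} {q t : ℕ} (hV : finrank K V = 3) (hq : Nat.card K = q) (h : Arc f U v)
    (hc : Club K U p q t) :
    ∃ S : Set (ℙ K (LinearMap.ker f)), t ≤ S.ncard ∧
      ∀ P ∈ S, InA f U v (P.rep : LinearMap.ker f) := by
  classical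
  set H := LinearMap.ker f with hH
  have hp0 : (⟨p, h.hU p hc.mem⟩ : H) ≠ 0 := fun h0 => hc.ne (congrArg Subtype.val h0)
  set P0 : ℙ K H := Projectivization.mk K ⟨p, h.hU p hc.mem⟩ hp0 with hP0
  set g : V → ℙ K H := fun u => if hu : f u = 0 ∧ u ≠ 0 then
    Projectivization.mk K (⟨u, hu.1⟩ : H) (fun h0 => hu.2 (congrArg Subtype.val h0)) else P0 with hg
  set T : Set (ℙ K H) := g '' (U : Set V) with hT
  have h1 : T ⊆ insert P0 (g '' ((U : Set V) \ {x : V | x ∈ U ∧ ∃ c : K, x = c • p})) := by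
    rintro P ⟨u, hu, rfl⟩
    by_cases h2 : ∃ c : K, u = c • p
    · left
      obtain ⟨c, hc'⟩ := h2
      simp only [hg]
      split_ifs with h3
      · rw [Projectivization.mk_eq_mk_iff']
        exact ⟨c, Subtype.ext hc'.symm⟩
      · rfl
    · right
      exact ⟨u, ⟨hu, fun h3 => h2 h3.2⟩, rfl⟩
  have h2 : ((U : Set V) \ {x : V | x ∈ U ∧ ∃ c : K, x = c • p}).ncard = q - t := by
    rw [Set.ncard_sdiff (fun x hx => hx.1), hc.heavy]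
    congr 1
    exact hc.card
  have h3 : T.ncard ≤ 1 + (q - t) := by
    refine (Set.ncard_le_ncard h1 (Set.toFinite _)).trans ((Set.ncard_insert_le _ _).trans ?_)
    rw [add_comm, ← h2]
    exact Nat.add_le_add_left (Set.ncard_image_le (Set.toFinite _)) _
  have h4 : Nat.card (ℙ K H) = q + 1 := by
    rw [Projectivization.card_of_finrank_two K H (finrank_ker h.hv hV), hq]
  have ht : t ≤ q := by
    rw [← hc.heavy, ← hc.card]
    exact Set.ncard_le_ncard (fun x hx => hx.1) (Set.toFinite _)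
  refine ⟨Tᶜ, ?_, fun P hP => ?_⟩
  · rw [Set.ncard_compl, h4]
    omega
  · have hrep : P.rep ≠ 0 := P.rep_nonzero
    have hrep' : (P.rep : V) ≠ 0 := fun h0 => hrep (Subtype.ext h0)
    refine Or.inr ⟨hrep', P.rep.2, fun u hu c hcu => hP ⟨u, hu, ?_⟩⟩
    have hc0 : c ≠ 0 := by
      rintro rfl
      rw [zero_smul] at hcu
      exact hrep' hcu
    have hu0 : u ≠ 0 := by
      rintro rfl
      rw [smul_zero] at hcu
      exact hrep' hcu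
    simp only [hg]
    rw [dif_pos ⟨h.hU u hu, hu0⟩]
    conv_rhs => rw [← P.mk_rep]
    rw [Projectivization.mk_eq_mk_iff']
    refine ⟨c⁻¹, Subtype.ext ?_⟩
    change c⁻¹ • (P.rep : V) = u
    rw [hcu, smul_smul, inv_mul_cancel₀ hc0, one_smul]

/-- three points of the arc on the line -/
lemma three [Finite K] [Finite V] [FiniteDimensional K V] {f : V →ₗ[K] K} {U : AddSubgroup V}
    {v p : V} {q t : ℕ} (hV : finrank K V = 3) (hq : Nat.card K = q) (h : Arc f U v)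
    (hc : Club K U p q t) (ht : 3 ≤ t) :
    ∃ x₁ x₂ x₃ : V, (f x₁ = 0 ∧ f x₂ = 0 ∧ f x₃ = 0) ∧
      (InA f U v x₁ ∧ InA f U v x₂ ∧ InA f U v x₃) ∧
      (∀ c : K, x₁ ≠ c • x₂) ∧ (∀ c : K, x₁ ≠ c • x₃) ∧ (∀ c : K, x₂ ≠ c • x₃) := by
  obtain ⟨S, hS, hSA⟩ := many hV hq h hc
  obtain ⟨P, hP, Q, hQ, R, hR, hPQ, hPR, hQR⟩ := (Set.two_lt_ncard (Set.toFinite S)).1 (by omega)
  have key : ∀ P Q : ℙ K (LinearMap.ker f), P ≠ Q → ∀ c : K, (P.rep : V) ≠ c • (Q.rep : V) := by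
    intro P Q hPQ c hc
    apply hPQ
    rw [← P.mk_rep, ← Q.mk_rep, Projectivization.mk_eq_mk_iff']
    exact ⟨c, Subtype.ext hc.symm⟩
  exact ⟨P.rep, Q.rep, R.rep, ⟨P.rep.2, Q.rep.2, R.rep.2⟩, ⟨hSA P hP, hSA Q hQ, hSA R hR⟩,
    key P Q hPQ, key P R hPR, key Q R hQR⟩

variable {f₁ f₂ : V →ₗ[K] K} {U₁ U₂ : AddSubgroup V} {v₁ v₂ p₁ p₂ : V}

lemma iff_of_imp (h₂ : Arc f₂ U₂ v₂) (ψ : V ≃+ V) (hψ : IsSemilinear K ψ)
    (h : ∀ x, f₁ x = 0 → f₂ (ψ x) = 0) (x : V) : f₁ x = 0 ↔ f₂ (ψ x) = 0 := by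
  obtain ⟨σ, hσ⟩ := hψ
  refine ⟨h x, fun hx => ?_⟩
  by_contra hne
  have h1 : ∀ y, f₂ (ψ y) = 0 := by
    intro y
    have h2 : f₁ (y - (f₁ y * (f₁ x)⁻¹) • x) = 0 := by
      rw [map_sub, map_smul, smul_eq_mul, mul_assoc, inv_mul_cancel₀ hne, mul_one, sub_self]
    have h3 := h _ h2
    rw [map_sub, hσ, map_sub, map_smul, hx, smul_zero, sub_zero] at h3
    exact h3
  have h4 := h1 (ψ.symm v₂)
  rw [AddEquiv.apply_symm_apply, h₂.hv] at h4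
  exact one_ne_zero h4

/-- The main step. -/
theorem core [Finite K] [Finite V] [FiniteDimensional K V] {q t : ℕ} (hV : finrank K V = 3)
    (hq : Nat.card K = q) (h₁ : Arc f₁ U₁ v₁) (h₂ : Arc f₂ U₂ v₂) (c₁ : Club K U₁ p₁ q t)
    (c₂ : Club K U₂ p₂ q t) (ht : 3 ≤ t) (htq : t < q) (φ : V ≃+ V) (hφ : IsSemilinear K φ)
    (hA : ∀ x, InA f₁ U₁ v₁ x ↔ InA f₂ U₂ v₂ (φ x)) :
    ∃ ψ : V ≃+ V, IsSemilinear K ψ ∧ (∀ x, f₁ x = 0 ↔ f₂ (ψ x) = 0) ∧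
      ∃ κ : K, κ ≠ 0 ∧ ∀ x, x ∈ U₁ ↔ κ⁻¹ • ψ x ∈ U₂ := by
  suffices hs : ∃ ψ : V ≃+ V, IsSemilinear K ψ ∧ (∀ x, InA f₁ U₁ v₁ x ↔ InA f₂ U₂ v₂ (ψ x)) ∧
      ∀ x, f₁ x = 0 → f₂ (ψ x) = 0 by
    obtain ⟨ψ, hψ, hψA, hψH⟩ := hs
    have h3 := iff_of_imp h₂ ψ hψ hψH
    exact ⟨ψ, hψ, h3, step3 h₁ h₂ ψ hψ h3 hψA⟩
  by_cases hH : ∀ x, f₁ x = 0 → f₂ (φ x) = 0
  · exact ⟨φ, hφ, hA, hH⟩
  push Not at hH
  obtain ⟨y0, hy0, hy0'⟩ := hH
  obtain ⟨σ, hσ⟩ := id hφ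
  have hσ' : ∀ (a : K) (x : V), φ.symm (a • x) = σ.symm a • φ.symm x := by
    intro a x
    rw [AddEquiv.symm_apply_eq, hσ]
    simp
  -- the functional `x ↦ σ⁻¹ (f₂ (φ x))`
  let g : V →ₗ[K] K :=
    { toFun := fun x => σ.symm (f₂ (φ x))
      map_add' := fun x y => by simp
      map_smul' := fun a x => by simp [hσ] }
  have hg : ∀ x, g x = 0 ↔ f₂ (φ x) = 0 := fun x => by
    change σ.symm _ = 0 ↔ _
    simp
  set H := LinearMap.ker f₁ with hHdef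
  have hrank : finrank K (LinearMap.ker (g.domRestrict H)) = 1 := by
    have e1 := (g.domRestrict H).finrank_range_add_finrank_ker
    have e2 : LinearMap.range (g.domRestrict H) = ⊤ := by
      rw [LinearMap.range_eq_top]
      intro y
      refine ⟨(y * (g y0)⁻¹) • ⟨y0, hy0⟩, ?_⟩
      have : g y0 ≠ 0 := fun h0 => hy0' ((hg y0).1 h0)
      change g ((y * (g y0)⁻¹) • y0) = y
      rw [map_smul, smul_eq_mul, mul_assoc, inv_mul_cancel₀ this, mul_one]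
    rw [e2, finrank_top, finrank_self, finrank_ker h₁.hv hV] at e1
    omega
  obtain ⟨x0, hx0, hx0'⟩ := finrank_eq_one_iff'.1 hrank
  -- `z = x0` as a vector
  set z : V := ((x0 : H) : V) with hz
  have hz1 : f₁ z = 0 := (x0 : H).2
  have hz2 : f₂ (φ z) = 0 := (hg z).1 x0.2
  have hz0 : z ≠ 0 := by
    intro h0
    apply hx0
    apply Subtype.ext
    apply Subtype.ext
    exact h0
  have hzspan : ∀ x, f₁ x = 0 → f₂ (φ x) = 0 → ∃ a : K, x = a • z := by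
    intro x hx hx'
    obtain ⟨a, ha⟩ := hx0' ⟨⟨x, hx⟩, (hg x).2 hx'⟩
    refine ⟨a, ?_⟩
    have := congrArg (fun y : LinearMap.ker (g.domRestrict H) => ((y : H) : V)) ha
    exact this.symm
  -- in terms of `φ z`
  have hint0 : ∀ x, f₂ x = 0 → f₁ (φ.symm x) = 0 → ∃ a : K, x = a • φ z := by
    intro x hx hx'
    obtain ⟨a, ha⟩ := hzspan (φ.symm x) hx' (by rwa [AddEquiv.apply_symm_apply])
    refine ⟨σ a, ?_⟩
    rw [← hσ, ← ha, AddEquiv.apply_symm_apply]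
  have hφz : φ z ≠ 0 := by simpa using hz0
  -- two points of the image off the line give an element of `U₂`
  have two : ∀ x y : V, f₁ x = 0 → f₁ y = 0 → InA f₁ U₁ v₁ x → InA f₁ U₁ v₁ y →
      (∀ c : K, x ≠ c • y) → f₂ (φ x) ≠ 0 → f₂ (φ y) ≠ 0 →
      ∃ u ∈ U₂, ∃ w ∈ U₂, u ≠ w ∧ (∃ c : K, c ≠ 0 ∧ φ x = c • (u + v₂)) ∧
        (∃ c : K, c ≠ 0 ∧ φ y = c • (w + v₂)) ∧ ∃ a : K, u - w = a • φ z := by
    intro x y hx hy hxA hyA hxy hx2 hy2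
    obtain ⟨u, hu, c, hc, he⟩ := ((hA x).1 hxA).of_ne hx2
    obtain ⟨w, hw, d, hd, he'⟩ := ((hA y).1 hyA).of_ne hy2
    have hne : u ≠ w := by
      rintro rfl
      apply hxy (σ.symm (c * d⁻¹))
      apply φ.injective
      rw [hσ, he', he, smul_smul]
      congr 1
      simp [hd]
    refine ⟨u, hu, w, hw, hne, ⟨c, hc, he⟩, ⟨d, hd, he'⟩, hint0 _ ?_ ?_⟩
    · rw [map_sub, h₂.hU u hu, h₂.hU w hw, sub_zero]
    · have e : u - w = c⁻¹ • φ x - d⁻¹ • φ y := by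
        rw [he, he', smul_smul, smul_smul, inv_mul_cancel₀ hc, inv_mul_cancel₀ hd, one_smul,
          one_smul]
        abel
      rw [e, map_sub, hσ', hσ', map_sub, map_smul, map_smul, AddEquiv.symm_apply_apply,
        AddEquiv.symm_apply_apply, hx, hy, smul_zero, smul_zero, sub_zero]
  -- if `φ z` is proportional to an element of `U₂` no point of the arc on `H` maps into `H`
  have off : ∀ u ∈ U₂, ∀ w ∈ U₂, u ≠ w → (∃ a : K, u - w = a • φ z) →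
      ∀ x, f₁ x = 0 → InA f₁ U₁ v₁ x → f₂ (φ x) ≠ 0 := by
    rintro u hu w hw huw ⟨a, ha⟩ x hx hxA hx2
    obtain ⟨b, hb⟩ := hzspan x hx hx2
    have ha0 : a ≠ 0 := by
      rintro rfl
      rw [zero_smul] at ha
      exact huw (sub_eq_zero.1 ha)
    have h5 : φ x = (σ b * a⁻¹) • (u - w) := by
      rw [hb, hσ, ha, smul_smul, mul_assoc, inv_mul_cancel₀ ha0, mul_one]
    rcases (hA x).1 hxA with ⟨u', hu', c, hc, he⟩ | ⟨-, -, h6⟩
    · have : f₂ (φ x) = c := by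
        rw [he, map_smul, map_add, h₂.hU u' hu', h₂.hv, zero_add, smul_eq_mul, mul_one]
      exact hc (by rw [← this, hx2])
    · exact h6 _ (U₂.sub_mem hu hw) _ h5
  -- three points
  obtain ⟨x₁, x₂, x₃, ⟨hx₁, hx₂, hx₃⟩, ⟨hA₁, hA₂, hA₃⟩, h12, h13, h23⟩ := three hV hq h₁ c₁ ht
  -- two of them are off the line
  have hall : f₂ (φ x₁) ≠ 0 ∧ f₂ (φ x₂) ≠ 0 ∧ f₂ (φ x₃) ≠ 0 := by
    have prop : ∀ x y : V, f₁ x = 0 → f₁ y = 0 → x ≠ 0 → y ≠ 0 → (∀ c : K, x ≠ c • y) →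
        f₂ (φ x) = 0 → f₂ (φ y) = 0 → False := by
      intro x y hx hy hx0 hy0 hxy hx2 hy2
      obtain ⟨a, ha⟩ := hzspan x hx hx2
      obtain ⟨b, hb⟩ := hzspan y hy hy2
      have hb0 : b ≠ 0 := by
        rintro rfl
        rw [zero_smul] at hb
        exact hy0 hb
      apply hxy (a * b⁻¹)
      rw [ha, hb, smul_smul, mul_assoc, inv_mul_cancel₀ hb0, mul_one]
    have hne0 : ∀ x, f₁ x = 0 → InA f₁ U₁ v₁ x → x ≠ 0 := by
      intro x hx hxA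
      rcases hxA with ⟨u, hu, c, hc, he⟩ | ⟨h0, -, -⟩
      · have : f₁ x = c := by
          rw [he, map_smul, map_add, h₁.hU u hu, h₁.hv, zero_add, smul_eq_mul, mul_one]
        exact absurd (by rw [← this, hx]) hc
      · exact h0
    have hn₁ := hne0 x₁ hx₁ hA₁
    have hn₂ := hne0 x₂ hx₂ hA₂
    have hn₃ := hne0 x₃ hx₃ hA₃
    by_cases k₁ : f₂ (φ x₁) = 0
    · have k₂ : f₂ (φ x₂) ≠ 0 := fun k₂ => prop x₁ x₂ hx₁ hx₂ hn₁ hn₂ h12 k₁ k₂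
      have k₃ : f₂ (φ x₃) ≠ 0 := fun k₃ => prop x₁ x₃ hx₁ hx₃ hn₁ hn₃ h13 k₁ k₃
      obtain ⟨u, hu, w, hw, huw, -, -, ha⟩ := two x₂ x₃ hx₂ hx₃ hA₂ hA₃ h23 k₂ k₃
      exact ⟨off u hu w hw huw ha x₁ hx₁ hA₁, k₂, k₃⟩
    · by_cases k₂ : f₂ (φ x₂) = 0
      · have k₃ : f₂ (φ x₃) ≠ 0 := fun k₃ => prop x₂ x₃ hx₂ hx₃ hn₂ hn₃ h23 k₂ k₃
        obtain ⟨u, hu, w, hw, huw, -, -, ha⟩ := two x₁ x₃ hx₁ hx₃ hA₁ hA₃ h13 k₁ k₃
        exact ⟨k₁, off u hu w hw huw ha x₂ hx₂ hA₂, k₃⟩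
      · obtain ⟨u, hu, w, hw, huw, -, -, ha⟩ := two x₁ x₂ hx₁ hx₂ hA₁ hA₂ h12 k₁ k₂
        exact ⟨k₁, k₂, off u hu w hw huw ha x₃ hx₃ hA₃⟩
  obtain ⟨k₁, k₂, k₃⟩ := hall
  obtain ⟨u₁, hu₁, u₂, hu₂, hu12, ⟨d₁, hd₁, hφ₁⟩, ⟨d₂, hd₂, hφ₂⟩, ⟨a, ha⟩⟩ :=
    two x₁ x₂ hx₁ hx₂ hA₁ hA₂ h12 k₁ k₂
  obtain ⟨u₁', hu₁', u₃, hu₃, hu13, ⟨d₁', hd₁', hφ₁'⟩, ⟨d₃, hd₃, hφ₃⟩, ⟨a', ha'⟩⟩ :=
    two x₁ x₃ hx₁ hx₃ hA₁ hA₃ h13 k₁ k₃
  have huu : u₁' = u₁ := by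
    have e1 : f₂ (φ x₁) = d₁ := by
      rw [hφ₁, map_smul, map_add, h₂.hU u₁ hu₁, h₂.hv, zero_add, smul_eq_mul, mul_one]
    have e2 : f₂ (φ x₁) = d₁' := by
      rw [hφ₁', map_smul, map_add, h₂.hU u₁' hu₁', h₂.hv, zero_add, smul_eq_mul, mul_one]
    have e3 : d₁' = d₁ := by rw [← e1, ← e2]
    rw [e3, hφ₁] at hφ₁'
    have := smul_right_injective V hd₁ hφ₁'
    exact (add_right_cancel this).symm
  subst huu
  have hu23 : u₂ ≠ u₃ := by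
    rintro rfl
    apply h23 (σ.symm (d₂ * d₃⁻¹))
    apply φ.injective
    rw [hσ, hφ₃, hφ₂, smul_smul]
    congr 1
    simp [hd₃]
  -- the heavy point
  have ha0 : a ≠ 0 := by
    rintro rfl
    rw [zero_smul] at ha
    exact hu12 (sub_eq_zero.1 ha)
  have ha0' : a' ≠ 0 := by
    rintro rfl
    rw [zero_smul] at ha'
    exact hu13 (sub_eq_zero.1 ha')
  obtain ⟨b, hb⟩ := c₂.light (u₁' - u₂) (U₂.sub_mem hu₁ hu₂) (u₁' - u₃) (U₂.sub_mem hu₁ hu₃)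
    (sub_ne_zero.2 hu12) (sub_ne_zero.2 hu13) (fun h => hu23 (sub_right_injective h))
    ⟨a' * a⁻¹, by rw [ha, ha', smul_smul, mul_assoc, inv_mul_cancel₀ ha0, mul_one]⟩
  have hb0 : b ≠ 0 := by
    rintro rfl
    rw [zero_smul] at hb
    exact hu12 (sub_eq_zero.1 hb)
  have hzp : φ z = (a⁻¹ * b) • p₂ := by
    rw [mul_smul, ← hb, ha, smul_smul, inv_mul_cancel₀ ha0, one_smul]
  have hpz : p₂ = (b⁻¹ * a) • φ z := by
    rw [mul_smul, ← ha, hb, smul_smul, inv_mul_cancel₀ hb0, one_smul]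
  have hint : ∀ x, f₂ x = 0 → f₁ (φ.symm x) = 0 → ∃ a : K, x = a • p₂ := by
    intro x hx hx'
    obtain ⟨c, hc⟩ := hint0 x hx hx'
    exact ⟨c * (a⁻¹ * b), by rw [hc, hzp, smul_smul]⟩
  have hu0m : f₁ (φ.symm (u₁' + v₂)) = 0 := by
    have e : u₁' + v₂ = d₁⁻¹ • φ x₁ := by
      rw [hφ₁, smul_smul, inv_mul_cancel₀ hd₁, one_smul]
    rw [e, hσ', map_smul, AddEquiv.symm_apply_apply, hx₁, smul_zero]
  -- a point off `m`
  obtain ⟨u, hu, hum⟩ : ∃ u ∈ U₂, f₁ (φ.symm (u + v₂)) ≠ 0 := by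
    by_contra hcon
    push Not at hcon
    have e1 : {x : V | x ∈ U₂ ∧ ∃ c : K, x = c • p₂} = (U₂ : Set V) := by
      ext x
      refine ⟨fun hx => hx.1, fun hx => ⟨hx, ?_⟩⟩
      apply hint x (h₂.hU x hx)
      have e2 := hcon (x + u₁') (U₂.add_mem hx hu₁)
      have e3 : x = (x + u₁' + v₂) - (u₁' + v₂) := by abel
      rw [e3, map_sub, map_sub, e2, hu0m, sub_zero]
    have e4 := c₂.heavy
    rw [e1] at e4
    have e5 : (U₂ : Set V).ncard = q := c₂.card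
    omega
  obtain ⟨r, -, -, ⟨hr1, -, -⟩, ⟨hrA, -, -⟩, -⟩ := three hV hq h₂ c₂ ht
  refine move h₁ h₂ φ hφ hA p₂ (h₂.hU _ c₂.mem) ?_ hint u₁' hu₁ hu0m u hu hum r hrA hr1 ?_
  · rw [hpz, hσ', map_smul, AddEquiv.symm_apply_apply, hz1, smul_zero]
  · intro hr0
    obtain ⟨c, hc⟩ := hint r hr1 hr0
    rcases hrA with ⟨u', hu', d, hd, he⟩ | ⟨-, -, h6⟩
    · have : f₂ r = d := by
        rw [he, map_smul, map_add, h₂.hU u' hu', h₂.hv, zero_add, smul_eq_mul, mul_one]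
      exact hd (by rw [← this, hr1])
    · exact h6 _ c₂.mem _ hc

end Q140.KM
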