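import Pool.Agent.Q140.KM.Count

set_option autoImplicit false

open Module

namespace Q140.KM

/-- the general linear group is transitive on nonzero vectors -/
lemma exists_equiv {K H : Type*} [Field K] [AddCommGroup H] [Module K H] [FiniteDimensional K H]
    (p₁ p₂ : H) (h₁ : p₁ ≠ 0) (h₂ : p₂ ≠ 0) : ∃ e : H ≃ₗ[K] H, e p₁ = p₂ := by
  obtain ⟨C₁, hC₁⟩ := Submodule.exists_isCompl (K ∙ p₁)
  obtain ⟨C₂, hC₂⟩ := Submodule.exists_isCompl (K ∙ p₂)
  have e₁ := Submodule.finrank_add_eq_of_isCompl hC₁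
  have e₂ := Submodule.finrank_add_eq_of_isCompl hC₂
  rw [finrank_span_singleton h₁] at e₁
  rw [finrank_span_singleton h₂] at e₂
  have hfr : finrank K C₁ = finrank K C₂ := by omega
  let E₁ : (K ∙ p₁) ≃ₗ[K] (K ∙ p₂) := (LinearEquiv.toSpanNonzeroSingleton K H p₁ h₁).symm.trans
    (LinearEquiv.toSpanNonzeroSingleton K H p₂ h₂)
  let E₂ : C₁ ≃ₗ[K] C₂ := LinearEquiv.ofFinrankEq _ _ hfr
  let e : H ≃ₗ[K] H := ((Submodule.prodEquivOfIsCompl _ _ hC₁).symm.trans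
    (E₁.prodCongr E₂)).trans (Submodule.prodEquivOfIsCompl _ _ hC₂)
  refine ⟨e, ?_⟩
  have h3 : (Submodule.prodEquivOfIsCompl _ _ hC₁).symm p₁ =
      (⟨p₁, Submodule.mem_span_singleton_self p₁⟩, 0) := by
    rw [LinearEquiv.symm_apply_eq]
    simp
  have h4 : E₁ ⟨p₁, Submodule.mem_span_singleton_self p₁⟩ =
      ⟨p₂, Submodule.mem_span_singleton_self p₂⟩ := by
    change (LinearEquiv.toSpanNonzeroSingleton K H p₂ h₂)
      ((LinearEquiv.toSpanNonzeroSingleton K H p₁ h₁).symm _) = _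
    rw [← LinearEquiv.toSpanNonzeroSingleton_one K H p₁ h₁, LinearEquiv.symm_apply_apply,
      LinearEquiv.toSpanNonzeroSingleton_one]
  change Submodule.prodEquivOfIsCompl _ _ hC₂ ((E₁.prodCongr E₂)
    ((Submodule.prodEquivOfIsCompl _ _ hC₁).symm p₁)) = p₂
  rw [h3]
  simp [h4]

end Q140.KM
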